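import Mathlib.Algebra.Group.End
import Mathlib.LinearAlgebra.Matrix.Defs
import Mathlib.Data.Real.Basic
import Mathlib.Combinatorics.SimpleGraph.Basic

set_option autoImplicit false

namespace Pool.Agent.MP_df0aa7_co

/-- The signed adjacency matrix of a simple graph `G` for a choice `σ` of a sign `±1` on each
edge: entry `(i, j)` is the sign of the edge `ij` if `i` and `j` are adjacent, and `0` otherwise. -/
def signedAdj {V : Type} (G : SimpleGraph V) [DecidableRel G.Adj] (σ : G.edgeSet → ℤˣ) :
    Matrix V V ℝ :=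
  Matrix.of fun i j => if h : G.Adj i j then (((σ ⟨s(i, j), h⟩ : ℤˣ) : ℤ) : ℝ) else 0

end Pool.Agent.MP_df0aa7_co
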