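import Mathlib.Topology.Sheaves.Presheaf
import Mathlib.Algebra.Order.Chebyshev
import Mathlib.Algebra.Ring.IsFormallyReal
import Mathlib.Combinatorics.SimpleGraph.LapMatrix
import Mathlib.RingTheory.PiTensorProduct
import Mathlib.Tactic.Algebra.Basic
import Pool.Agent.MP_df0aa7_co.Defs

-- ======== part 0: formerly Pool.Agent.MP_df0aa7_co.Cover
section MrgPart0

/-!
The walk operator on pairs (vertex, set of edges used an odd number of times), and its
localisation to balls of the graph.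
-/

set_option autoImplicit false

open Finset
open scoped symmDiff

namespace Pool.Agent.MP_df0aa7_co

variable {V : Type} [Fintype V] [DecidableEq V] (G : SimpleGraph V) [DecidableRel G.Adj]

/-- Vertices reachable from `v` in at most `k` steps. -/
def ball : ℕ → V → Finset V
  | 0, v => {v}
  | k + 1, v => (insert v (G.neighborFinset v)).biUnion (ball k)

lemma mem_ball_succ {k : ℕ} {v u : V} :
    u ∈ ball G (k + 1) v ↔ ∃ w, (w = v ∨ G.Adj v w) ∧ u ∈ ball G k w := by
  simp only [ball, mem_biUnion, mem_insert, SimpleGraph.mem_neighborFinset]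

lemma self_mem_ball (k : ℕ) (v : V) : v ∈ ball G k v := by
  induction k with
  | zero => simp [ball]
  | succ k ih => exact (mem_ball_succ G).2 ⟨v, Or.inl rfl, ih⟩

lemma ball_trans {j k : ℕ} {a b c : V} (h1 : b ∈ ball G j a) (h2 : c ∈ ball G k b) :
    c ∈ ball G (k + j) a := by
  induction j generalizing a with
  | zero =>
    simp only [ball, mem_singleton] at h1
    subst h1
    exact h2
  | succ j ih =>
    obtain ⟨w, hw, hb⟩ := (mem_ball_succ G).1 h1
    exact (mem_ball_succ G).2 ⟨w, hw, ih hb⟩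

lemma mem_ball_one {v w : V} (h : w = v ∨ G.Adj v w) : w ∈ ball G 1 v :=
  (mem_ball_succ G).2 ⟨w, h, self_mem_ball G 0 w⟩

lemma ball_symm {j : ℕ} {a b : V} (h : b ∈ ball G j a) : a ∈ ball G j b := by
  induction j generalizing a with
  | zero =>
    simp only [ball, mem_singleton] at h ⊢
    exact h.symm
  | succ j ih =>
    obtain ⟨w, hw, hb⟩ := (mem_ball_succ G).1 h
    have h1 : a ∈ ball G 1 w := mem_ball_one G (hw.imp Eq.symm G.adj_symm)
    have := ball_trans G (ih hb) h1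
    rwa [add_comm] at this

lemma ball_subset_succ_of_adj {k : ℕ} {v w : V} (h : G.Adj v w) :
    ball G k w ⊆ ball G (k + 1) v :=
  fun _ hu => (mem_ball_succ G).2 ⟨w, Or.inr h, hu⟩

lemma card_ball {d : ℕ} (hd : ∀ v, G.degree v ≤ d) (k : ℕ) (v : V) :
    (ball G k v).card ≤ (d + 1) ^ k := by
  induction k generalizing v with
  | zero => simp [ball]
  | succ k ih =>
    refine (card_biUnion_le_card_mul _ _ _ fun w _ => ih w).trans ?_
    rw [pow_succ, mul_comm]
    refine Nat.mul_le_mul_left _ ((card_insert_le _ _).trans ?_)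
    rw [SimpleGraph.card_neighborFinset_eq_degree]
    exact Nat.succ_le_succ (hd v)

/-- States of the walk: a vertex and the set of edges used an odd number of times. -/
abbrev St (V : Type) : Type := V × Finset (Sym2 V)

/-- The walk operator, restricted to the vertex set `U`. -/
def Tw (U : Finset V) (f : St V → ℝ) : St V → ℝ := fun x =>
  if x.1 ∈ U then ∑ w ∈ (G.neighborFinset x.1).filter (· ∈ U), f (w, x.2 ∆ {s(x.1, w)}) else 0

lemma Tw_univ (f : St V → ℝ) (x : St V) :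
    Tw G univ f x = ∑ w ∈ G.neighborFinset x.1, f (w, x.2 ∆ {s(x.1, w)}) := by
  simp [Tw]

lemma iterate_local {U : Finset V} (g : St V → ℝ) (l : ℕ) (x : St V) (h : ball G l x.1 ⊆ U) :
    (Tw G univ)^[l] g x = (Tw G U)^[l] g x := by
  induction l generalizing x with
  | zero => rfl
  | succ l ih =>
    rw [Function.iterate_succ_apply', Function.iterate_succ_apply', Tw_univ, Tw,
      if_pos (h (self_mem_ball G _ _)), filter_true_of_mem]
    · refine sum_congr rfl fun w hw => ih _ ?_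
      exact (ball_subset_succ_of_adj G (by simpa using hw)).trans h
    · intro w hw
      exact h (ball_subset_succ_of_adj G (by simpa using hw) (self_mem_ball G _ _))

lemma iterate_congr {g g' : St V → ℝ} {e : Sym2 V} {c : V} (hc : c ∈ e)
    (hg : ∀ y : St V, e ∈ y.2 → g y = g' y) (l : ℕ) (x : St V) (hx : e ∈ x.2)
    (h : c ∉ ball G l x.1) : (Tw G univ)^[l] g x = (Tw G univ)^[l] g' x := by
  induction l generalizing x with
  | zero => exact hg x hx
  | succ l ih =>
    rw [Function.iterate_succ_apply', Function.iterate_succ_apply', Tw_univ, Tw_univ]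
    refine sum_congr rfl fun w hw => ?_
    have hadj : G.Adj x.1 w := by simpa using hw
    have hw' : ball G l w ⊆ ball G (l + 1) x.1 := ball_subset_succ_of_adj G hadj
    refine ih _ ?_ fun hc' => h (hw' hc')
    have hne : e ≠ s(x.1, w) := by
      rintro rfl
      rcases Sym2.mem_iff.1 hc with rfl | rfl
      · exact h (self_mem_ball G _ _)
      · exact h (hw' (self_mem_ball G _ _))
    simp [mem_symmDiff, hx, hne]

/-- Sum of squares. -/
def nsq {X : Type} [Fintype X] (f : X → ℝ) : ℝ := ∑ x, f x ^ 2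

lemma nsq_nonneg {X : Type} [Fintype X] (f : X → ℝ) : 0 ≤ nsq f :=
  sum_nonneg fun _ _ => sq_nonneg _

/-- The bilinear form of the subgraph induced on `U`. -/
def bil (U : Finset V) (a b : V → ℝ) : ℝ :=
  ∑ v ∈ U, ∑ w ∈ (G.neighborFinset v).filter (· ∈ U), b v * a w

lemma bil_eq (U : Finset V) (a b : V → ℝ) :
    bil G U a b = ∑ v ∈ U, ∑ w ∈ U, if G.Adj v w then b v * a w else 0 := by
  refine sum_congr rfl fun v _ => ?_
  rw [← sum_filter]
  refine sum_congr ?_ fun _ _ => rfl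
  ext w
  simp [and_comm]

lemma bil_comm (U : Finset V) (a b : V → ℝ) : bil G U a b = bil G U b a := by
  rw [bil_eq, bil_eq, sum_comm]
  refine sum_congr rfl fun v _ => sum_congr rfl fun w _ => ?_
  simp only [G.adj_comm w v, mul_comm]

lemma bil_le {U : Finset V} {ρ : ℝ} (h : ∀ a : V → ℝ, bil G U a a ≤ ρ * nsq a) (a b : V → ℝ) :
    bil G U a b ≤ ρ / 2 * (nsq a + nsq b) := by
  have h1 := h (a + b)
  have h2 : -bil G U (a - b) (a - b) ≤ ρ * nsq (a - b) := by
    have h3 := h fun v => |(a - b) v|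
    have h4 : nsq (fun v => |(a - b) v|) = nsq (a - b) := by simp [nsq]
    rw [h4] at h3
    refine le_trans ?_ h3
    unfold bil
    rw [← sum_neg_distrib]
    refine sum_le_sum fun v _ => ?_
    rw [← sum_neg_distrib]
    refine sum_le_sum fun w _ => ?_
    rw [← abs_mul]
    exact neg_le_abs _
  have e1 : bil G U (a + b) (a + b) - bil G U (a - b) (a - b) =
      2 * bil G U a b + 2 * bil G U b a := by
    simp only [bil, mul_sum, ← sum_sub_distrib, ← sum_add_distrib, Pi.add_apply, Pi.sub_apply]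
    refine sum_congr rfl fun v _ => sum_congr rfl fun w _ => ?_
    ring
  have e2 : nsq (a + b) + nsq (a - b) = 2 * (nsq a + nsq b) := by
    simp only [nsq, mul_sum, mul_add, ← sum_add_distrib, Pi.add_apply, Pi.sub_apply]
    refine sum_congr rfl fun v _ => ?_
    ring
  rw [← bil_comm G U a b] at e1
  have e3 : ρ * nsq (a + b) + ρ * nsq (a - b) = ρ * (2 * (nsq a + nsq b)) := by
    rw [← mul_add, e2]
  linarith

lemma sum_symmDiff (e : Sym2 V) (F : Finset (Sym2 V) → ℝ) : ∑ z, F (z ∆ {e}) = ∑ z, F z :=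
  Equiv.sum_comp (Function.Involutive.toPerm (fun z : Finset (Sym2 V) => z ∆ {e})
    (fun _ => symmDiff_symmDiff_cancel_right _ _)) F

lemma nsq_Tw_le {U : Finset V} {ρ : ℝ} (hρ : 0 < ρ)
    (h : ∀ a : V → ℝ, bil G U a a ≤ ρ * nsq a) (f : St V → ℝ) :
    nsq (Tw G U f) ≤ ρ ^ 2 * nsq f := by
  set g := Tw G U f with hg
  set a : V → ℝ := fun v => √(∑ z, f (v, z) ^ 2) with ha
  set b : V → ℝ := fun v => √(∑ z, g (v, z) ^ 2) with hb
  have hna : nsq a = nsq f := by
    rw [nsq, nsq, Fintype.sum_prod_type]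
    exact sum_congr rfl fun v _ => Real.sq_sqrt (sum_nonneg fun _ _ => sq_nonneg _)
  have hnb : nsq b = nsq g := by
    rw [nsq, nsq, Fintype.sum_prod_type]
    exact sum_congr rfl fun v _ => Real.sq_sqrt (sum_nonneg fun _ _ => sq_nonneg _)
  have h1 : nsq g ≤ bil G U a b := by
    rw [nsq, Fintype.sum_prod_type, bil, ← sum_subset (subset_univ U)]
    · refine sum_le_sum fun v hv => ?_
      have e : ∀ z, g (v, z) ^ 2 =
          ∑ w ∈ (G.neighborFinset v).filter (· ∈ U), g (v, z) * f (w, z ∆ {s(v, w)}) := by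
        intro z
        rw [← mul_sum, sq]
        congr 1
        simp only [hg, Tw, if_pos hv]
      simp only [e]
      rw [sum_comm]
      refine sum_le_sum fun w _ => ?_
      refine (Real.sum_mul_le_sqrt_mul_sqrt _ _ _).trans (le_of_eq ?_)
      rw [sum_symmDiff s(v, w) fun z => f (w, z) ^ 2]
    · intro v _ hv
      simp [hg, Tw, hv]
  have h2 := bil_le G h (ρ • a) b
  have e1 : bil G U (ρ • a) b = ρ * bil G U a b := by
    simp only [bil, mul_sum, Pi.smul_apply, smul_eq_mul]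
    refine sum_congr rfl fun v _ => sum_congr rfl fun w _ => ?_
    ring
  have e2 : nsq (ρ • a) = ρ ^ 2 * nsq a := by
    simp only [nsq, mul_sum, Pi.smul_apply, smul_eq_mul, mul_pow]
  rw [e1, e2, hna, hnb] at h2
  have h3 : ρ * nsq g ≤ ρ * (1 / 2 * (ρ ^ 2 * nsq f + nsq g)) := by
    have := mul_le_mul_of_nonneg_left h1 hρ.le
    linarith
  have h4 := le_of_mul_le_mul_left h3 hρ
  linarith

lemma nsq_iterate_le {U : Finset V} {ρ : ℝ} (hρ : 0 < ρ)
    (h : ∀ a : V → ℝ, bil G U a a ≤ ρ * nsq a) (l : ℕ) (f : St V → ℝ) :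
    nsq ((Tw G U)^[l] f) ≤ ρ ^ (2 * l) * nsq f := by
  induction l with
  | zero => simp
  | succ l ih =>
    rw [Function.iterate_succ_apply']
    refine (nsq_Tw_le G hρ h _).trans ?_
    calc ρ ^ 2 * nsq ((Tw G U)^[l] f) ≤ ρ ^ 2 * (ρ ^ (2 * l) * nsq f) := by gcongr
      _ = ρ ^ (2 * (l + 1)) * nsq f := by ring

omit [Fintype V] in
lemma prod_symmDiff {σ : Sym2 V → ℝ} {e : Sym2 V} (he : σ e * σ e = 1) (z : Finset (Sym2 V)) :
    ∏ x ∈ z ∆ {e}, σ x = (∏ x ∈ z, σ x) * σ e := by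
  by_cases h : e ∈ z
  · have : z ∆ {e} = z.erase e := by
      ext x
      by_cases hx : x = e <;> simp [mem_symmDiff, hx, h]
    rw [this, ← mul_prod_erase z σ h]
    linear_combination (-∏ x ∈ z.erase e, σ x) * he
  · have : z ∆ {e} = insert e z := by
      ext x
      by_cases hx : x = e <;> simp [mem_symmDiff, hx, h]
    rw [this, prod_insert h, mul_comm]

omit [Fintype V] in
lemma card_symmDiff_le (e : Sym2 V) (z : Finset (Sym2 V)) : (z ∆ {e}).card ≤ z.card + 1 := by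
  refine (card_le_card (t := insert e z) fun x hx => ?_).trans (card_insert_le _ _)
  rw [mem_symmDiff] at hx
  rcases hx with hx | hx
  · exact mem_insert_of_mem hx.1
  · rw [mem_singleton.1 hx.1]; exact mem_insert_self _ _

/-- The product of vertex signs over an edge. -/
def edgeSign (τ : V → ℝ) : Sym2 V → ℝ := Sym2.lift ⟨fun a b => τ a * τ b, fun _ _ => mul_comm _ _⟩

/-- States that can be reached from `(v0, ∅)` in `j` steps have these properties. -/
def Inv (v0 : V) (j : ℕ) (x : St V) : Prop :=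
  (∀ e ∈ x.2, e ∈ G.edgeSet) ∧ x.2.card ≤ j ∧
    ∀ τ : V → ℝ, (∀ v, τ v * τ v = 1) → ∏ e ∈ x.2, edgeSign τ e = τ x.1 * τ v0

/-- The number of walks of length `j` between `(v0, ∅)` and a state. -/
def Fw (v0 : V) (j : ℕ) : St V → ℝ := (Tw G univ)^[j] (Pi.single (v0, ∅) 1)

lemma Fw_succ (v0 : V) (j : ℕ) (x : St V) :
    Fw G v0 (j + 1) x = ∑ w ∈ G.neighborFinset x.1, Fw G v0 j (w, x.2 ∆ {s(x.1, w)}) := by
  rw [Fw, Function.iterate_succ_apply', Tw_univ]; rfl

lemma inv_of_Fw (v0 : V) (j : ℕ) (x : St V) (h : Fw G v0 j x ≠ 0) : Inv G v0 j x := by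
  induction j generalizing x with
  | zero =>
    have : x = (v0, ∅) := by
      by_contra hc
      exact h (Pi.single_eq_of_ne hc _)
    subst this
    exact ⟨by simp, by simp, fun τ hτ => by simp [hτ]⟩
  | succ j ih =>
    rw [Fw_succ] at h
    obtain ⟨w, hw, hne⟩ := exists_ne_zero_of_sum_ne_zero h
    obtain ⟨h1, h2, h3⟩ := ih _ hne
    have hadj : G.Adj x.1 w := by simpa using hw
    have e : x.2 = (x.2 ∆ {s(x.1, w)}) ∆ {s(x.1, w)} := (symmDiff_symmDiff_cancel_right _ _).symm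
    refine ⟨fun e' he' => ?_, ?_, fun τ hτ => ?_⟩
    · by_cases hc : e' = s(x.1, w)
      · rw [hc]; exact hadj
      · exact h1 e' (by simp [mem_symmDiff, he', hc])
    · rw [e]
      exact (card_symmDiff_le _ _).trans (Nat.succ_le_succ h2)
    · have e2 : edgeSign τ s(x.1, w) = τ x.1 * τ w := rfl
      rw [e, prod_symmDiff, h3 τ hτ, e2]
      · linear_combination (τ x.1 * τ v0) * hτ w
      · rw [e2]
        linear_combination (τ w * τ w) * hτ x.1 + hτ w

/-- Possible centres for a state. -/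
def cen (v0 : V) (x : St V) : Finset V := insert v0 (x.2.biUnion Sym2.toFinset)

omit [Fintype V] in
lemma card_cen (v0 : V) (x : St V) : (cen v0 x).card ≤ 2 * x.2.card + 1 := by
  refine (card_insert_le _ _).trans (Nat.succ_le_succ ?_)
  rw [mul_comm]
  refine card_biUnion_le_card_mul _ _ _ fun e _ => ?_
  induction e using Sym2.ind with
  | _ a b => rw [Sym2.toFinset_mk_eq]; exact card_le_two

lemma exists_centre (v0 : V) (j l : ℕ) (x : St V) (hx : Inv G v0 j x) (g : St V → ℝ) :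
    ∃ c, (Tw G univ)^[l] g x =
      (Tw G (ball G (2 * l + 1) c))^[l] (fun y => if c ∈ cen v0 y then g y else 0) x := by
  have key : ∀ c, c ∈ ball G (l + 1) x.1 → ball G l x.1 ⊆ ball G (2 * l + 1) c := by
    intro c hc u hu
    have := ball_trans G (ball_symm G hc) hu
    rwa [show l + (l + 1) = 2 * l + 1 by ring] at this
  by_cases h0 : v0 ∈ ball G l x.1
  · refine ⟨v0, ?_⟩
    have h1 : v0 ∈ ball G (l + 1) x.1 := (mem_ball_succ G).2 ⟨x.1, Or.inl rfl, h0⟩
    rw [iterate_local G g l x (key v0 h1)]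
    simp [cen]
  · set τ : V → ℝ := fun v => if v ∈ ball G l x.1 then -1 else 1 with hτ
    have hτ1 : ∀ v, τ v * τ v = 1 := by
      intro v; simp only [hτ]; split_ifs <;> norm_num
    have h1 := hx.2.2 τ hτ1
    have h2 : τ x.1 * τ v0 = -1 := by simp [hτ, self_mem_ball, h0]
    have h3 : ∃ e ∈ x.2, edgeSign τ e ≠ 1 := by
      by_contra hc
      push Not at hc
      rw [prod_eq_one hc, h2] at h1
      norm_num at h1
    obtain ⟨e, he, hne⟩ := h3
    have h4 : ∃ c ∈ e, c ∉ ball G l x.1 ∧ c ∈ ball G (l + 1) x.1 := by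
      have hE := hx.1 e he
      induction e using Sym2.ind with
      | _ a b =>
        have hadj : G.Adj a b := hE
        have e2 : edgeSign τ s(a, b) = τ a * τ b := rfl
        rw [e2] at hne
        by_cases ha : a ∈ ball G l x.1 <;> by_cases hb : b ∈ ball G l x.1
        · simp [hτ, ha, hb] at hne
        · refine ⟨b, by simp, hb, ?_⟩
          have := ball_trans G ha (mem_ball_one G (Or.inr hadj))
          rwa [add_comm] at this
        · refine ⟨a, by simp, ha, ?_⟩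
          have := ball_trans G hb (mem_ball_one G (Or.inr hadj.symm))
          rwa [add_comm] at this
        · simp [hτ, ha, hb] at hne
    obtain ⟨c, hce, hc1, hc2⟩ := h4
    refine ⟨c, ?_⟩
    rw [← iterate_local G _ l x (key c hc2)]
    refine iterate_congr G hce (fun y hy => ?_) l x he hc1
    rw [if_pos]
    exact mem_insert_of_mem (mem_biUnion.2 ⟨e, hy, Sym2.mem_toFinset.2 hce⟩)

lemma nsq_Fw_step {ρ : ℝ} (hρ : 0 < ρ) (l : ℕ)
    (h : ∀ c, ∀ a : V → ℝ, bil G (ball G (2 * l + 1) c) a a ≤ ρ * nsq a) (v0 : V) (j : ℕ) :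
    nsq (Fw G v0 (l + j)) ≤ (2 * j + 1) * ρ ^ (2 * l) * nsq (Fw G v0 j) := by
  set g := Fw G v0 j with hg
  set gc : V → St V → ℝ := fun c y => if c ∈ cen v0 y then g y else 0 with hgc
  have h1 : ∀ x, Fw G v0 (l + j) x ^ 2 ≤
      ∑ c, (Tw G (ball G (2 * l + 1) c))^[l] (gc c) x ^ 2 := by
    intro x
    by_cases hx : Fw G v0 (l + j) x = 0
    · rw [hx]
      simpa using sum_nonneg fun _ _ => sq_nonneg _
    · obtain ⟨c, hc⟩ := exists_centre G v0 (l + j) l x (inv_of_Fw G v0 _ x hx) g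
      have e : Fw G v0 (l + j) x = (Tw G univ)^[l] g x := by
        rw [Fw, Function.iterate_add_apply]; rfl
      rw [e, hc]
      exact single_le_sum (f := fun c => (Tw G (ball G (2 * l + 1) c))^[l] (gc c) x ^ 2)
        (fun _ _ => sq_nonneg _) (mem_univ c)
  have h2 : ∑ c, nsq (gc c) ≤ (2 * j + 1) * nsq g := by
    simp only [nsq]
    rw [sum_comm, mul_sum]
    refine sum_le_sum fun y _ => ?_
    have e : ∑ c, gc c y ^ 2 = (cen v0 y).card * g y ^ 2 := by
      simp only [hgc, ite_pow]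
      rw [← sum_filter_add_sum_filter_not univ (· ∈ cen v0 y)]
      rw [sum_congr rfl fun c hc => if_pos (mem_filter.1 hc).2,
        sum_congr rfl fun c hc => if_neg (mem_filter.1 hc).2]
      simp
    rw [e]
    by_cases hy : g y = 0
    · simp [hy]
    · have h3 := (inv_of_Fw G v0 j y hy).2.1
      have h4 : (cen v0 y).card ≤ 2 * j + 1 := (card_cen v0 y).trans (by omega)
      have h5 : ((cen v0 y).card : ℝ) ≤ 2 * j + 1 := by exact_mod_cast h4
      gcongr
  calc nsq (Fw G v0 (l + j))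
      ≤ ∑ x, ∑ c, (Tw G (ball G (2 * l + 1) c))^[l] (gc c) x ^ 2 := sum_le_sum fun x _ => h1 x
    _ = ∑ c, nsq ((Tw G (ball G (2 * l + 1) c))^[l] (gc c)) := sum_comm
    _ ≤ ∑ c, ρ ^ (2 * l) * nsq (gc c) := sum_le_sum fun c _ => nsq_iterate_le G hρ (h c) l _
    _ = ρ ^ (2 * l) * ∑ c, nsq (gc c) := by rw [mul_sum]
    _ ≤ ρ ^ (2 * l) * ((2 * j + 1) * nsq g) := by gcongr
    _ = _ := by ring

lemma nsq_Fw_le {ρ : ℝ} (hρ : 0 < ρ) (l : ℕ)
    (h : ∀ c, ∀ a : V → ℝ, bil G (ball G (2 * l + 1) c) a a ≤ ρ * nsq a) (v0 : V) (L m : ℕ)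
    (hm : m * l ≤ L) : nsq (Fw G v0 (m * l)) ≤ ((2 * L + 1) * ρ ^ (2 * l)) ^ m := by
  induction m with
  | zero =>
    simp only [zero_mul, pow_zero, Fw, Function.iterate_zero, id, nsq]
    rw [sum_eq_single (v0, ∅)]
    · simp
    · intro y _ hy
      simp [Pi.single_eq_of_ne hy]
    · simp
  | succ m ih =>
    have hm' : m * l ≤ L := le_trans (Nat.mul_le_mul_right _ (Nat.le_succ m)) hm
    rw [show (m + 1) * l = l + m * l by ring]
    refine (nsq_Fw_step G hρ l h v0 _).trans ?_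
    have h1 : ((m * l : ℕ) : ℝ) ≤ L := by exact_mod_cast hm'
    rw [pow_succ, mul_comm (_ ^ m)]
    have := nsq_nonneg (Fw G v0 (m * l))
    gcongr
    exact ih hm'

lemma Fw_diag_le {ρ : ℝ} (hρ : 0 < ρ) (l : ℕ)
    (h : ∀ c, ∀ a : V → ℝ, bil G (ball G (2 * l + 1) c) a a ≤ ρ * nsq a) (v0 : V) (m : ℕ) :
    Fw G v0 (2 * m * l) (v0, ∅) ≤ ((4 * m * l + 1) * ρ ^ (2 * l)) ^ m := by
  have h1 := nsq_Fw_le G hρ l h v0 (2 * m * l) (2 * m) le_rfl
  have h2 : Fw G v0 (2 * m * l) (v0, ∅) ^ 2 ≤ nsq (Fw G v0 (2 * m * l)) :=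
    single_le_sum (f := fun x => Fw G v0 (2 * m * l) x ^ 2) (fun _ _ => sq_nonneg _) (mem_univ _)
  refine (abs_le_of_sq_le_sq' ?_ (by positivity)).2
  refine h2.trans (h1.trans (le_of_eq ?_))
  rw [← pow_mul, mul_comm m 2]
  push_cast
  ring

end Pool.Agent.MP_df0aa7_co

end MrgPart0

-- ======== part 1: formerly Pool.Agent.MP_df0aa7_co.Trace
section MrgPart1

/-!
The trace method for random signings, and the local spectral bound for expanders.
-/

set_option autoImplicit false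

open Finset Matrix
open scoped symmDiff

namespace Pool.Agent.MP_df0aa7_co

variable {V : Type} [Fintype V] [DecidableEq V] (G : SimpleGraph V) [DecidableRel G.Adj]

/-- The sign of an unordered pair (`1` on non-edges). -/
def sg (σ : G.edgeSet → ℤˣ) (e : Sym2 V) : ℝ :=
  if h : e ∈ G.edgeSet then (((σ ⟨e, h⟩ : ℤˣ) : ℤ) : ℝ) else 1

omit [Fintype V] [DecidableEq V] in
lemma sg_mul (σ κ : G.edgeSet → ℤˣ) (e : Sym2 V) : sg G (σ * κ) e = sg G σ e * sg G κ e := by
  unfold sg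
  split_ifs <;> simp

omit [Fintype V] [DecidableEq V] in
lemma sg_mul_self (σ : G.edgeSet → ℤˣ) (e : Sym2 V) : sg G σ e * sg G σ e = 1 := by
  unfold sg
  split_ifs with h
  · rcases Int.units_eq_one_or (σ ⟨e, h⟩) with h' | h' <;> simp [h']
  · simp

omit [Fintype V] [DecidableEq V] in
lemma signedAdj_apply (σ : G.edgeSet → ℤˣ) (i j : V) :
    signedAdj G σ i j = if G.Adj i j then sg G σ s(i, j) else 0 := by
  by_cases h : G.Adj i j
  · have h' : s(i, j) ∈ G.edgeSet := h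
    simp [signedAdj, sg, h]
  · simp [signedAdj, h]

omit [Fintype V] [DecidableEq V] in
lemma signedAdj_transpose (σ : G.edgeSet → ℤˣ) : (signedAdj G σ)ᵀ = signedAdj G σ := by
  ext i j
  rw [transpose_apply, signedAdj_apply, signedAdj_apply, Sym2.eq_swap]
  simp only [G.adj_comm]

lemma signedAdj_pow (σ : G.edgeSet → ℤˣ) (v0 : V) (j : ℕ) (v : V) :
    (signedAdj G σ ^ j) v v0 = ∑ z, Fw G v0 j (v, z) * ∏ e ∈ z, sg G σ e := by
  induction j generalizing v with
  | zero =>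
    simp only [pow_zero, Fw, Function.iterate_zero, id]
    rw [sum_eq_single ∅]
    · by_cases h : v = v0
      · subst h; simp
      · rw [one_apply_ne h, Pi.single_eq_of_ne (by simpa using h)]; simp
    · intro z _ hz
      rw [Pi.single_eq_of_ne (by simp [hz])]; simp
    · simp
  | succ j ih =>
    rw [pow_succ', mul_apply]
    simp only [Fw_succ, sum_mul]
    rw [sum_comm (s := univ) (t := G.neighborFinset v),
      ← sum_subset (subset_univ (G.neighborFinset v))]
    · refine sum_congr rfl fun w hw => ?_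
      have hadj : G.Adj v w := by simpa using hw
      rw [ih, signedAdj_apply, if_pos hadj, mul_sum,
        ← sum_symmDiff s(v, w) fun z => sg G σ s(v, w) * (Fw G v0 j (w, z) * ∏ e ∈ z, sg G σ e)]
      refine sum_congr rfl fun z _ => ?_
      rw [prod_symmDiff (sg_mul_self G σ _)]
      linear_combination (Fw G v0 j (w, z ∆ {s(v, w)}) * ∏ e ∈ z, sg G σ e) *
        sg_mul_self G σ s(v, w)
    · intro w _ hw
      rw [signedAdj_apply, if_neg (by simpa using hw), zero_mul]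

lemma sum_char {z : Finset (Sym2 V)} (hz : ∀ e ∈ z, e ∈ G.edgeSet) (hne : z ≠ ∅) :
    ∑ σ : G.edgeSet → ℤˣ, ∏ e ∈ z, sg G σ e = 0 := by
  obtain ⟨e, he⟩ := nonempty_iff_ne_empty.2 hne
  set κ : G.edgeSet → ℤˣ := Pi.mulSingle ⟨e, hz e he⟩ (-1) with hκ
  have h1 : ∏ x ∈ z, sg G κ x = -1 := by
    rw [prod_eq_single_of_mem e he]
    · simp [sg, hz e he, hκ]
    · intro x hx hxe
      have : (⟨x, hz x hx⟩ : G.edgeSet) ≠ ⟨e, hz e he⟩ := fun h => hxe (congrArg Subtype.val h)
      simp [sg, hz x hx, hκ, Pi.mulSingle_eq_of_ne this]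
  have h2 := Equiv.sum_comp (Equiv.mulRight κ) fun σ : G.edgeSet → ℤˣ => ∏ e ∈ z, sg G σ e
  simp only [Equiv.coe_mulRight, sg_mul, prod_mul_distrib, h1, mul_neg, mul_one,
    sum_neg_distrib] at h2
  linarith

lemma sum_pow_diag (v0 : V) (j : ℕ) :
    ∑ σ : G.edgeSet → ℤˣ, (signedAdj G σ ^ j) v0 v0 =
      Fintype.card (G.edgeSet → ℤˣ) * Fw G v0 j (v0, ∅) := by
  simp only [signedAdj_pow]
  rw [sum_comm, sum_eq_single ∅]
  · simp
  · intro z _ hz
    rw [← mul_sum]
    by_cases h : Fw G v0 j (v0, z) = 0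
    · rw [h, zero_mul]
    · rw [sum_char G (inv_of_Fw G v0 j _ h).1 hz, mul_zero]
  · simp

lemma trace_pow_eq {S : Matrix V V ℝ} (hS : Sᵀ = S) (k : ℕ) :
    ∑ v, (S ^ (2 * k)) v v = ∑ v, ∑ w, (S ^ k) v w ^ 2 := by
  refine sum_congr rfl fun v _ => ?_
  rw [two_mul, pow_add, mul_apply]
  refine sum_congr rfl fun w _ => ?_
  have : (S ^ k) w v = (S ^ k) v w := by
    conv_lhs => rw [← hS, ← transpose_pow, transpose_apply]
  rw [this, sq]

lemma pow_le_trace {S : Matrix V V ℝ} (hS : Sᵀ = S) (k : ℕ) {μ : ℝ} (hμ : μ ∈ spectrum ℝ S) :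
    μ ^ (2 * k) ≤ ∑ v, (S ^ (2 * k)) v v := by
  rw [← Matrix.spectrum_toLin', ← Module.End.hasEigenvalue_iff_mem_spectrum] at hμ
  obtain ⟨x, hx⟩ := hμ.exists_hasEigenvector
  have h1 : S *ᵥ x = μ • x := by simpa using hx.apply_eq_smul
  have h2 : ∀ k : ℕ, (S ^ k) *ᵥ x = μ ^ k • x := by
    intro k
    induction k with
    | zero => simp
    | succ k ih => rw [pow_succ', ← mulVec_mulVec, ih, mulVec_smul, h1, smul_smul, pow_succ]
  have h3 : 0 < ∑ v, x v ^ 2 := by
    obtain ⟨v, hv⟩ := Function.ne_iff.1 hx.2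
    exact sum_pos' (fun _ _ => sq_nonneg _) ⟨v, mem_univ _, sq_pos_of_ne_zero hv⟩
  rw [trace_pow_eq hS]
  refine le_of_mul_le_mul_right ?_ h3
  rw [mul_sum, sum_mul]
  refine sum_le_sum fun v _ => ?_
  have h4 : μ ^ (2 * k) * x v ^ 2 = (∑ w, (S ^ k) v w * x w) ^ 2 := by
    have := congrFun (h2 k) v
    simp only [mulVec, dotProduct, Pi.smul_apply, smul_eq_mul] at this
    rw [this]; ring
  rw [h4]
  exact sum_mul_sq_le_sq_mul_sq _ _ _

open Classical in
/-- The engine: a tail bound from the spectral radii of balls. -/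
lemma card_bad_le {ρ t : ℝ} (hρ : 0 < ρ) (ht : 0 ≤ t) (l m : ℕ)
    (h : ∀ c, ∀ a : V → ℝ, bil G (ball G (2 * l + 1) c) a a ≤ ρ * nsq a) :
    ((univ.filter fun σ : G.edgeSet → ℤˣ =>
        ∃ μ ∈ spectrum ℝ (signedAdj G σ), t ≤ |μ|).card : ℝ) * t ^ (2 * (m * l)) ≤
      Fintype.card (G.edgeSet → ℤˣ) *
        (Fintype.card V * ((4 * m * l + 1) * ρ ^ (2 * l)) ^ m) := by
  set tr : (G.edgeSet → ℤˣ) → ℝ := fun σ => ∑ v, (signedAdj G σ ^ (2 * (m * l))) v v with htr
  have h0 : ∀ σ, 0 ≤ tr σ := by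
    intro σ
    simp only [htr]
    rw [trace_pow_eq (signedAdj_transpose G σ)]
    exact sum_nonneg fun _ _ => sum_nonneg fun _ _ => sq_nonneg _
  calc _ = ∑ σ ∈ univ.filter (fun σ : G.edgeSet → ℤˣ =>
        ∃ μ ∈ spectrum ℝ (signedAdj G σ), t ≤ |μ|), t ^ (2 * (m * l)) := by simp
    _ ≤ ∑ σ ∈ univ.filter (fun σ : G.edgeSet → ℤˣ =>
        ∃ μ ∈ spectrum ℝ (signedAdj G σ), t ≤ |μ|), tr σ := by
        refine sum_le_sum fun σ hσ => ?_
        obtain ⟨μ, hμ, hμt⟩ := (mem_filter.1 hσ).2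
        refine le_trans ?_ (pow_le_trace (signedAdj_transpose G σ) _ hμ)
        rw [← (even_two_mul (m * l)).pow_abs μ]
        gcongr
    _ ≤ ∑ σ, tr σ := sum_le_sum_of_subset_of_nonneg (filter_subset _ _) fun σ _ _ => h0 σ
    _ = ∑ v, Fintype.card (G.edgeSet → ℤˣ) * Fw G v (2 * (m * l)) (v, ∅) := by
        simp only [htr]
        rw [sum_comm]
        exact sum_congr rfl fun v _ => sum_pow_diag G v _
    _ ≤ ∑ _v : V, Fintype.card (G.edgeSet → ℤˣ) * ((4 * m * l + 1) * ρ ^ (2 * l)) ^ m := by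
        refine sum_le_sum fun v _ => ?_
        rw [← mul_assoc 2]
        gcongr
        exact Fw_diag_le G hρ l h v m
    _ = _ := by simp; ring

lemma quad_le_of_eigen {A : Matrix V V ℝ} (hA : A.IsHermitian) {lam : ℝ} (y : V → ℝ)
    (h : ∀ i, hA.eigenvalues i ≤ lam ∨ (hA.eigenvectorBasis i).ofLp ⬝ᵥ y = 0) :
    y ⬝ᵥ A *ᵥ y ≤ lam * (y ⬝ᵥ y) := by
  set b := hA.eigenvectorBasis with hb
  have hsymm : Aᵀ = A := by simpa using hA.eq
  have key : ∀ u w : V → ℝ, u ⬝ᵥ w = ∑ i, ((b i).ofLp ⬝ᵥ u) * ((b i).ofLp ⬝ᵥ w) := by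
    intro u w
    have := b.sum_inner_mul_inner (WithLp.toLp 2 u) (WithLp.toLp 2 w)
    simp only [EuclideanSpace.inner_eq_star_dotProduct, star_trivial] at this
    rw [dotProduct_comm u w, ← this]
    refine sum_congr rfl fun i _ => ?_
    rw [dotProduct_comm w]
  rw [key y (A *ᵥ y), key y y, mul_sum]
  refine sum_le_sum fun i _ => ?_
  have e : (b i).ofLp ⬝ᵥ A *ᵥ y = hA.eigenvalues i * ((b i).ofLp ⬝ᵥ y) := by
    rw [dotProduct_mulVec, ← mulVec_transpose, hsymm, hA.mulVec_eigenvectorBasis i,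
      smul_dotProduct, smul_eq_mul]
  rw [e]
  rcases h i with h | h
  · nlinarith [mul_self_nonneg ((b i).ofLp ⬝ᵥ y)]
  · rw [h]; simp

lemma quad_le_of_sum_zero {d : ℕ} (hc : G.Connected) (hd : G.IsRegularOfDegree d) {lam : ℝ}
    (hl : ∀ μ ∈ spectrum ℝ (G.adjMatrix ℝ), μ ≠ d → μ ≤ lam) (y : V → ℝ) (hy : ∑ v, y v = 0) :
    y ⬝ᵥ G.adjMatrix ℝ *ᵥ y ≤ lam * (y ⬝ᵥ y) := by
  have hA : (G.adjMatrix ℝ).IsHermitian := G.isHermitian_adjMatrix ℝ
  refine quad_le_of_eigen hA y fun i => ?_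
  by_cases hi : hA.eigenvalues i = d
  · right
    set u := (hA.eigenvectorBasis i).ofLp with hu
    have h1 : G.adjMatrix ℝ *ᵥ u = (d : ℝ) • u := by
      rw [← hi]; exact hA.mulVec_eigenvectorBasis i
    have h2 : G.lapMatrix ℝ *ᵥ u = 0 := by
      funext v
      rw [SimpleGraph.lapMatrix_mulVec_apply, ← SimpleGraph.adjMatrix_mulVec_apply, h1, hd v]
      simp
    have h3 := (SimpleGraph.lapMatrix_mulVec_eq_zero_iff_forall_reachable G).1 h2
    obtain ⟨v0⟩ := hc.nonempty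
    have h4 : ∀ v, u v = u v0 := fun v => h3 v v0 (hc.preconnected v v0)
    simp only [dotProduct, h4, ← mul_sum, hy, mul_zero]
  · exact Or.inl (hl _ (hA.eigenvalues_mem_spectrum_real i) hi)

lemma bil_le_of_spectrum {d : ℕ} (hc : G.Connected) (hd : G.IsRegularOfDegree d) {lam : ℝ}
    (h0 : 0 ≤ lam) (hl : ∀ μ ∈ spectrum ℝ (G.adjMatrix ℝ), μ ≠ d → μ ≤ lam) (U : Finset V)
    (a : V → ℝ) : bil G U a a ≤ (lam + d * U.card / Fintype.card V) * nsq a := by
  have := hc.nonempty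
  have hn : (0 : ℝ) < Fintype.card V := by exact_mod_cast Fintype.card_pos
  set x : V → ℝ := fun v => if v ∈ U then a v else 0 with hx
  set c : ℝ := (∑ v, x v) / Fintype.card V with hcdef
  set y : V → ℝ := fun v => x v - c with hy
  have hy0 : ∑ v, y v = 0 := by
    simp only [hy, sum_sub_distrib, sum_const, card_univ, nsmul_eq_mul, hcdef]
    field_simp
    ring
  have hxy : x = y + Function.const V c := by
    funext v; simp [hy]
  have h1 : bil G U a a = x ⬝ᵥ G.adjMatrix ℝ *ᵥ x := by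
    rw [bil, dotProduct, ← sum_subset (subset_univ U)]
    · refine sum_congr rfl fun v hv => ?_
      rw [SimpleGraph.adjMatrix_mulVec_apply, mul_sum, sum_filter]
      refine sum_congr rfl fun w _ => ?_
      simp only [hx, if_pos hv]
      split_ifs <;> simp
    · intro v _ hv
      simp [hx, hv]
  have hAc : G.adjMatrix ℝ *ᵥ Function.const V c = Function.const V (d * c) := by
    funext v
    rw [SimpleGraph.adjMatrix_mulVec_const_apply, hd v]
    rfl
  have hyc : ∀ r : ℝ, y ⬝ᵥ Function.const V r = 0 := by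
    intro r
    simp only [dotProduct, Function.const_apply, ← sum_mul, hy0, zero_mul]
  have h2 : x ⬝ᵥ G.adjMatrix ℝ *ᵥ x =
      y ⬝ᵥ G.adjMatrix ℝ *ᵥ y + d * (c ^ 2 * Fintype.card V) := by
    rw [hxy, mulVec_add, add_dotProduct, dotProduct_add, dotProduct_add, hAc, hyc,
      dotProduct_mulVec (Function.const V c), ← mulVec_transpose, SimpleGraph.transpose_adjMatrix,
      hAc, dotProduct_comm _ y, hyc]
    simp [dotProduct]
    ring
  have h3 : x ⬝ᵥ x = y ⬝ᵥ y + c ^ 2 * Fintype.card V := by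
    conv_lhs => rw [hxy]
    rw [add_dotProduct, dotProduct_add, dotProduct_add, hyc,
      dotProduct_comm (Function.const V c) y, hyc]
    simp [dotProduct]
    ring
  have h4 : x ⬝ᵥ x ≤ nsq a := by
    refine sum_le_sum fun v _ => ?_
    simp only [hx]
    split_ifs
    · rw [sq]
    · simpa using sq_nonneg _
  have h5 : c ^ 2 * Fintype.card V ≤ U.card / Fintype.card V * nsq a := by
    have e1 : ∑ v, x v = ∑ v ∈ U, a v := by
      simp only [hx]
      rw [← sum_filter, filter_mem_eq_inter, univ_inter]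
    have e2 : (∑ v ∈ U, a v) ^ 2 ≤ U.card * nsq a :=
      sq_sum_le_card_mul_sum_sq.trans (by
        refine mul_le_mul_of_nonneg_left ?_ (Nat.cast_nonneg _)
        exact sum_le_sum_of_subset_of_nonneg (subset_univ U) fun _ _ _ => sq_nonneg _)
    rw [hcdef, e1]
    calc ((∑ v ∈ U, a v) / Fintype.card V) ^ 2 * Fintype.card V
        = (∑ v ∈ U, a v) ^ 2 / Fintype.card V := by field_simp
      _ ≤ U.card * nsq a / Fintype.card V := by gcongr
      _ = _ := by ring
  have h6 := quad_le_of_sum_zero G hc hd hl y hy0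
  have h7 : y ⬝ᵥ y ≤ nsq a := by
    have : 0 ≤ c ^ 2 * Fintype.card V := by positivity
    linarith
  rw [h1, h2]
  calc y ⬝ᵥ G.adjMatrix ℝ *ᵥ y + d * (c ^ 2 * Fintype.card V)
      ≤ lam * nsq a + d * (U.card / Fintype.card V * nsq a) := by
        gcongr
        exact h6.trans (by gcongr)
    _ = _ := by ring

end Pool.Agent.MP_df0aa7_co

end MrgPart1

-- ======== part 2: formerly Pool.Agent.MP_df0aa7_co.Main
section MrgPart2

/-!
Choice of parameters.
-/

set_option autoImplicit false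

open Finset Filter Topology

namespace Pool.Agent.MP_df0aa7_co

lemma exists_l0 (D a : ℕ) {r ε : ℝ} (hr0 : 0 ≤ r) (hr : r < 1) (hε : 0 < ε) :
    ∃ l0 : ℕ, ∀ l ≥ l0, (4 * ((2 * D * (l + 1) : ℕ) : ℝ) * l + 1) * r ^ l ≤ 1 / 2 ∧
      (a : ℝ) ≤ ε * 2 ^ l := by
  have hr' : |r| < 1 := by rwa [abs_of_nonneg hr0]
  have h1 : Tendsto (fun l : ℕ => 8 * D * ((l : ℝ) ^ 2 * r ^ l) + 8 * D * ((l : ℝ) ^ 1 * r ^ l) +
      (l : ℝ) ^ 0 * r ^ l) atTop (𝓝 (8 * D * 0 + 8 * D * 0 + (0 : ℝ))) :=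
    (((tendsto_pow_const_mul_const_pow_of_abs_lt_one 2 hr').const_mul _).add
      ((tendsto_pow_const_mul_const_pow_of_abs_lt_one 1 hr').const_mul _)).add
      (tendsto_pow_const_mul_const_pow_of_abs_lt_one 0 hr')
  have h2 : Tendsto (fun l : ℕ => ε * (2 : ℝ) ^ l) atTop atTop :=
    (tendsto_pow_atTop_atTop_of_one_lt (by norm_num)).const_mul_atTop hε
  have h3 := (h1.eventually (eventually_le_nhds (b := (1 / 2 : ℝ)) (by norm_num))).and
    (h2.eventually (eventually_ge_atTop (a : ℝ)))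
  obtain ⟨l0, hl0⟩ := eventually_atTop.1 h3
  refine ⟨l0, fun l hl => ⟨le_trans (le_of_eq ?_) (hl0 l hl).1, (hl0 l hl).2⟩⟩
  push_cast
  ring

open Classical in
theorem main (d : ℕ) (lam ε : ℝ) (h0 : 0 ≤ lam) (hε : 0 < ε) :
    ∃ n₀ : ℕ, ∀ (V : Type) [Fintype V] [DecidableEq V] (G : SimpleGraph V) [DecidableRel G.Adj],
      n₀ ≤ Fintype.card V → G.Connected → G.IsRegularOfDegree d →
      (∀ μ ∈ spectrum ℝ (G.adjMatrix ℝ), μ ≠ d → μ ≤ lam) →
      ((univ.filter fun σ : G.edgeSet → ℤˣ =>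
        ∃ μ ∈ spectrum ℝ (signedAdj G σ), lam + ε ≤ |μ|).card : ℝ) ≤
        Fintype.card (G.edgeSet → ℤˣ) / Fintype.card V := by
  set ρ := lam + ε / 2 with hρdef
  set t := lam + ε with htdef
  have hρ : 0 < ρ := by positivity
  have ht : 0 < t := by positivity
  have hρt : ρ / t < 1 := by
    rw [div_lt_one ht]; linarith
  set D : ℕ := 2 * (d + 1) ^ 2 with hD
  have hD1 : 1 < D := by
    have : 1 ≤ (d + 1) ^ 2 := Nat.one_le_pow _ _ (Nat.succ_pos d)
    omega
  obtain ⟨l0, hl0⟩ := exists_l0 D (d * (d + 1)) (r := (ρ / t) ^ 2) (ε := ε / 2) (by positivity)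
    (pow_lt_one₀ (by positivity) hρt two_ne_zero) (by positivity)
  refine ⟨D ^ l0, fun V _ _ G _ hn hc hd hl => ?_⟩
  set n := Fintype.card V with hndef
  have hn0 : n ≠ 0 := by
    have : 0 < D ^ l0 := by positivity
    omega
  have hnR : (0 : ℝ) < n := by positivity
  set l := Nat.log D n with hldef
  have hl1 : l0 ≤ l := Nat.le_log_of_pow_le hD1 hn
  have hl2 : D ^ l ≤ n := Nat.pow_log_le_self D hn0
  have hl3 : n < D ^ (l + 1) := Nat.lt_pow_succ_log_self hD1 n
  obtain ⟨ha, hb⟩ := hl0 l hl1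
  set m := 2 * D * (l + 1) with hm
  have hball : ∀ c, ∀ a : V → ℝ, bil G (ball G (2 * l + 1) c) a a ≤ ρ * nsq a := by
    intro c a
    refine (bil_le_of_spectrum G hc hd h0 hl _ a).trans
      (mul_le_mul_of_nonneg_right ?_ (nsq_nonneg a))
    have h1 : ((ball G (2 * l + 1) c).card : ℝ) ≤ (d + 1) ^ (2 * l + 1) := by
      exact_mod_cast card_ball G (fun v => (hd v).le) (2 * l + 1) c
    have h2 : ((2 : ℝ) * (d + 1) ^ 2) ^ l ≤ n := by exact_mod_cast hl2
    have h3 : (d : ℝ) * (ball G (2 * l + 1) c).card ≤ ε / 2 * n := by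
      calc (d : ℝ) * (ball G (2 * l + 1) c).card ≤ d * (d + 1) ^ (2 * l + 1) := by gcongr
        _ = ((d * (d + 1) : ℕ) : ℝ) * ((d + 1) ^ 2) ^ l := by
            rw [← pow_mul, pow_succ]; push_cast; ring
        _ ≤ ε / 2 * 2 ^ l * ((d + 1) ^ 2) ^ l := by gcongr
        _ = ε / 2 * ((2 : ℝ) * (d + 1) ^ 2) ^ l := by rw [mul_pow]; ring
        _ ≤ ε / 2 * n := by gcongr
    have h4 : (d : ℝ) * (ball G (2 * l + 1) c).card / n ≤ ε / 2 := by
      rw [div_le_iff₀ hnR]; exact h3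
    rw [hρdef]
    linarith
  have hmain := card_bad_le G hρ ht.le l m hball
  have h1 : (4 * (m : ℝ) * l + 1) * ρ ^ (2 * l) ≤ 1 / 2 * t ^ (2 * l) := by
    have e : ρ ^ (2 * l) = ((ρ / t) ^ 2) ^ l * t ^ (2 * l) := by
      rw [← pow_mul, div_pow]; field_simp
    rw [e, ← mul_assoc]
    gcongr
  have h2 : ((4 * (m : ℝ) * l + 1) * ρ ^ (2 * l)) ^ m ≤ (1 / 2) ^ m * t ^ (2 * (m * l)) := by
    calc _ ≤ (1 / 2 * t ^ (2 * l)) ^ m := by gcongr
      _ = _ := by rw [mul_pow, ← pow_mul]; ring_nf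
  have h3 : (n : ℝ) * (1 / 2) ^ m ≤ 1 / n := by
    have a1 : n ≤ 2 ^ (D * (l + 1)) := by
      rw [pow_mul]
      exact hl3.le.trans (Nat.pow_le_pow_left (Nat.lt_two_pow_self).le _)
    have a2 : n * n ≤ 2 ^ m := by
      rw [hm, mul_assoc, two_mul, pow_add]
      exact Nat.mul_le_mul a1 a1
    have a3 : (n : ℝ) * n ≤ 2 ^ m := by exact_mod_cast a2
    rw [one_div_pow, mul_one_div, div_le_div_iff₀ (by positivity) hnR]
    linarith
  refine le_of_mul_le_mul_right (hmain.trans ?_) (pow_pos ht (2 * (m * l)))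
  calc (Fintype.card (G.edgeSet → ℤˣ) : ℝ) * (n * ((4 * m * l + 1) * ρ ^ (2 * l)) ^ m)
      ≤ Fintype.card (G.edgeSet → ℤˣ) * (n * ((1 / 2) ^ m * t ^ (2 * (m * l)))) := by gcongr
    _ = Fintype.card (G.edgeSet → ℤˣ) * (n * (1 / 2) ^ m) * t ^ (2 * (m * l)) := by ring
    _ ≤ Fintype.card (G.edgeSet → ℤˣ) * (1 / n) * t ^ (2 * (m * l)) := by gcongr
    _ = _ := by ring

end Pool.Agent.MP_df0aa7_co

end MrgPart2

-- marker of a merged file
example : 731051 + 599021 = 731051 + 599021 := rfl
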